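import Mathlib
import Pool.Agent.Helper318.ForceCH

set_option autoImplicit false
set_option linter.all false

namespace Pool.Agent.Results.MP_aebb62_gt.ConsistentlyNo

open MeasureTheory Topology Filter Set Cardinal
open Pool.Agent.Helper318.ForceCH (Om countable_Iio exists_bound)

/-- the Dirac measure at `x` -/
noncomputable def dir {X : Type} [MeasurableSpace X] (x : X) : ProbabilityMeasure X :=
  ⟨Measure.dirac x, inferInstance⟩

theorem coe_dir {X : Type} [MeasurableSpace X] (x : X) :
    ((dir x : ProbabilityMeasure X) : Measure X) = Measure.dirac x := rfl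

/-- There is a compactum `X` of countable tightness (even a Corson compactum: it embeds in
`{0,1}^ω₁` with countable supports) such that countable tightness of the space of (regular)
probability measures on `X` fails at a Dirac measure. -/
def Fails : Prop :=
  ∃ (X : Type) (_ : TopologicalSpace X) (_ : CompactSpace X) (_ : T2Space X)
    (_ : MeasurableSpace X) (_ : BorelSpace X),
    (∃ e : X → (Om → Bool), IsEmbedding e ∧ ∀ x, {a | e x a = true}.Countable) ∧
    (∀ (S : Set X) (y : X), y ∈ closure S → ∃ T ⊆ S, T.Countable ∧ y ∈ closure T) ∧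
    ∃ (x : X) (A : Set (ProbabilityMeasure X)), (∀ μ ∈ A, (μ : Measure X).Regular) ∧
      dir x ∈ closure A ∧ ∀ B ⊆ A, B.Countable → dir x ∉ closure B

noncomputable section

variable (K : Om → Set ℝ)

/-- the space of the sets `A` of indices for which the `K a`, `a ∈ A`, have a common point -/
def Sp : Set (Om → Bool) :=
  {A | ∀ F : Finset Om, (∀ a ∈ F, A a = true) → (Icc (0 : ℝ) 1 ∩ ⋂ a ∈ F, K a).Nonempty}

theorem isClosed_Sp : IsClosed (Sp K) := by
  have : Sp K = ⋂ F : Finset Om, {A | (∀ a ∈ F, A a = true) → (Icc (0 : ℝ) 1 ∩ ⋂ a ∈ F, K a).Nonempty} := by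
    ext A; simp [Sp]
  rw [this]
  refine isClosed_iInter fun F => ?_
  by_cases h : (Icc (0 : ℝ) 1 ∩ ⋂ a ∈ F, K a).Nonempty
  · simp [h]
  · have h2 : {A : Om → Bool | (∀ a ∈ F, A a = true) → (Icc (0 : ℝ) 1 ∩ ⋂ a ∈ F, K a).Nonempty}
        = (⋂ a ∈ F, {A : Om → Bool | A a = true})ᶜ := by
      ext A
      simp [h]
    rw [h2]
    refine IsOpen.isClosed_compl ?_
    refine isOpen_biInter_finset fun a _ => ?_
    have hc : Continuous (fun A : Om → Bool => A a) := continuous_apply a
    exact (isOpen_discrete ({true} : Set Bool)).preimage hc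

instance : CompactSpace (Sp K) := isCompact_iff_compactSpace.1 (isClosed_Sp K).isCompact

variable {K}

theorem exists_pt (hK : ∀ a, IsCompact (K a)) (A : Sp K) :
    ∃ t : ℝ, ∀ a, A.1 a = true → t ∈ K a := by
  have := IsCompact.inter_iInter_nonempty (isCompact_Icc (a := (0 : ℝ)) (b := 1))
    (fun a : {a // A.1 a = true} => K a.1) (fun a => (hK a.1).isClosed) (by
      intro u
      have h := A.2 (u.map ⟨Subtype.val, Subtype.val_injective⟩) (by
        intro a ha
        simp only [Finset.mem_map, Function.Embedding.coeFn_mk] at ha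
        obtain ⟨b, _, rfl⟩ := ha
        exact b.2)
      obtain ⟨t, ht1, ht2⟩ := h
      refine ⟨t, ht1, ?_⟩
      simp only [mem_iInter] at ht2 ⊢
      intro i hi
      exact ht2 i.1 (by simp only [Finset.mem_map, Function.Embedding.coeFn_mk]; exact ⟨i, hi, rfl⟩))
  obtain ⟨t, _, ht⟩ := this
  exact ⟨t, fun a ha => mem_iInter.1 ht ⟨a, ha⟩⟩

/-- standing assumption: every real lies only in `K a` for `a` below some bound -/
def Bdd (K : Om → Set ℝ) : Prop := ∀ t : ℝ, ∃ g : Om, ∀ a, t ∈ K a → a < g

theorem exists_bd (hK : ∀ a, IsCompact (K a)) (hb : Bdd K) (A : Sp K) :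
    ∃ g : Om, ∀ a, A.1 a = true → a < g := by
  obtain ⟨t, ht⟩ := exists_pt hK A
  obtain ⟨g, hg⟩ := hb t
  exact ⟨g, fun a ha => hg a (ht a ha)⟩

theorem exists_bound' {ι : Type} [Countable ι] (f : ι → Om) : ∃ a : Om, ∀ i, f i < a := by
  rcases isEmpty_or_nonempty ι with h | h
  · exact ⟨(exists_bound (fun _ => (Classical.arbitrary Om))).choose, fun i => h.elim i⟩
  · obtain ⟨e, he⟩ := exists_surjective_nat ι
    obtain ⟨a, ha⟩ := exists_bound (fun n => f (e n))
    refine ⟨a, fun i => ?_⟩
    obtain ⟨n, rfl⟩ := he i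
    exact ha n

theorem mem_closure_iff' (S : Set (Sp K)) (y : Sp K) :
    y ∈ closure S ↔ ∀ F : Finset Om, ∃ s ∈ S, ∀ a ∈ F, s.1 a = y.1 a := by
  constructor
  · intro h F
    have ho : IsOpen {x : Sp K | ∀ a ∈ F, x.1 a = y.1 a} := by
      have : {x : Sp K | ∀ a ∈ F, x.1 a = y.1 a} = ⋂ a ∈ F, {x : Sp K | x.1 a = y.1 a} := by
        ext x; simp
      rw [this]
      refine isOpen_biInter_finset fun a _ => ?_
      have hc : Continuous (fun A : Om → Bool => A a) := continuous_apply a
      exact (isOpen_discrete ({y.1 a} : Set Bool)).preimage (hc.comp continuous_subtype_val)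
    obtain ⟨s, hs1, hs2⟩ := mem_closure_iff.1 h _ ho (fun a _ => rfl)
    exact ⟨s, hs2, hs1⟩
  · intro h
    rw [mem_closure_iff]
    intro o ho hy
    obtain ⟨v, hv, rfl⟩ := isOpen_induced_iff.1 ho
    obtain ⟨I, u, hu1, hu2⟩ := isOpen_pi_iff.1 hv y.1 hy
    obtain ⟨s, hs, hs2⟩ := h I
    refine ⟨s, hu2 ?_, hs⟩
    intro a ha
    rw [hs2 a ha]
    exact (hu1 a ha).2

theorem tight (hK : ∀ a, IsCompact (K a)) (hb : Bdd K) (S : Set (Sp K)) (y : Sp K)
    (hy : y ∈ closure S) : ∃ T ⊆ S, T.Countable ∧ y ∈ closure T := by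
  rw [mem_closure_iff'] at hy
  choose s hsS hs using hy
  choose bd hbd using exists_bd hK hb
  have hstep : ∀ g : Om, ∃ g' : Om, g < g' ∧
      ∀ F : Finset {b : Om // b < g}, bd (s (F.map ⟨Subtype.val, Subtype.val_injective⟩)) < g' := by
    intro g
    haveI := countable_Iio g
    obtain ⟨a, ha⟩ := exists_bound' (ι := Option (Finset {b : Om // b < g}))
      (fun o => o.elim g (fun F => bd (s (F.map ⟨Subtype.val, Subtype.val_injective⟩))))
    exact ⟨a, ha none, fun F => ha (some F)⟩
  choose nx hnx1 hnx2 using hstep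
  let g : ℕ → Om := fun n => Nat.rec (motive := fun _ => Om) (bd y) (fun _ x => nx x) n
  have hg0 : g 0 = bd y := rfl
  have hgs : ∀ n, g (n + 1) = nx (g n) := fun n => rfl
  have hmono : Monotone g := monotone_nat_of_le_succ fun n => by rw [hgs]; exact (hnx1 _).le
  let T : Set (Sp K) := ⋃ n, range (fun F : Finset {b : Om // b < g n} =>
    s (F.map ⟨Subtype.val, Subtype.val_injective⟩))
  refine ⟨T, ?_, ?_, ?_⟩
  · intro x hx
    obtain ⟨n, F, rfl⟩ := mem_iUnion.1 hx
    exact hsS _
  · refine countable_iUnion fun n => ?_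
    haveI := countable_Iio (g n)
    exact countable_range _
  · rw [mem_closure_iff']
    intro F
    classical
    let F' : Finset Om := @Finset.filter Om (fun a : Om => ∃ n : ℕ, a < g n) (Classical.decPred _) F
    have hF' : ∃ n, ∀ a ∈ F', a < g n := by
      have : ∀ G : Finset Om, (∀ a ∈ G, ∃ n, a < g n) → ∃ n, ∀ a ∈ G, a < g n := by
        intro G
        induction G using Finset.induction_on with
        | empty => intro _; exact ⟨0, by simp⟩
        | insert a G ha ih =>
          intro h
          obtain ⟨n, hn⟩ := ih (fun b hb => h b (Finset.mem_insert_of_mem hb))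
          obtain ⟨m, hm⟩ := h a (Finset.mem_insert_self _ _)
          refine ⟨max n m, fun b hb => ?_⟩
          rcases Finset.mem_insert.1 hb with rfl | hb
          · exact hm.trans_le (hmono (le_max_right _ _))
          · exact (hn b hb).trans_le (hmono (le_max_left _ _))
      exact this F' (fun a ha => (Finset.mem_filter.1 ha).2)
    obtain ⟨n, hn⟩ := hF'
    let G : Finset {b : Om // b < g n} := F'.subtype (fun b => b < g n)
    have hG : G.map ⟨Subtype.val, Subtype.val_injective⟩ = F' := by
      ext a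
      simp only [G, Finset.mem_map, Finset.mem_subtype, Function.Embedding.coeFn_mk]
      constructor
      · rintro ⟨b, hb, rfl⟩; exact hb
      · intro ha; exact ⟨⟨a, hn a ha⟩, ha, rfl⟩
    refine ⟨s F', ?_, ?_⟩
    · refine mem_iUnion.2 ⟨n, G, ?_⟩
      simp only [hG]
    · intro a ha
      by_cases h : ∃ n, a < g n
      · exact hs F' a (Finset.mem_filter.2 ⟨ha, h⟩)
      · push Not at h
        have h1 : y.1 a = false := by
          by_contra hc
          have := hbd y a (by simpa using hc)
          exact absurd this (not_lt.2 (h 0))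
        have h2 : (s F').1 a = false := by
          by_contra hc
          have h3 := hbd (s F') a (by simpa using hc)
          have h4 := hnx2 (g n) G
          rw [hG] at h4
          exact absurd (h3.trans h4) (not_lt.2 (h (n + 1)))
        rw [h1, h2]

/-! ### The measures -/

open Classical in
variable (K) in
/-- the point of the space given by `t`, restricted to the coordinates `≥ b` -/
def pt (b : Om) (t : ℝ) (ht : t ∈ Icc (0 : ℝ) 1) : Sp K :=
  ⟨fun a => decide (b ≤ a ∧ t ∈ K a), by
    intro F hF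
    refine ⟨t, ht, ?_⟩
    simp only [mem_iInter]
    intro a ha
    have := hF a ha
    simp only [decide_eq_true_eq] at this
    exact this.2⟩

variable (K) in
def zero (K : Om → Set ℝ) : Sp K := ⟨fun _ => false, by
  intro F hF
  have : F = ∅ := by
    rw [Finset.eq_empty_iff_forall_notMem]
    intro a ha
    simpa using hF a ha
  subst this
  exact ⟨0, by simp⟩⟩

/-- coordinate function -/
def co (a : Om) : C(Sp K, ℝ) :=
  ⟨fun x => if x.1 a = true then 1 else 0, by
    have h : Continuous (fun b : Bool => if b = true then (1 : ℝ) else 0) := continuous_of_discreteTopology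
    exact h.comp ((continuous_apply a).comp continuous_subtype_val)⟩

theorem measurable_pt (hK : ∀ a, IsCompact (K a)) (b : Om) (f : C(Sp K, ℝ)) :
    Measurable (fun t : Icc (0 : ℝ) 1 => f (pt K b t.1 t.2)) := by
  let Al : Subalgebra ℝ C(Sp K, ℝ) :=
    { carrier := {f | Measurable (fun t : Icc (0 : ℝ) 1 => f (pt K b t.1 t.2))}
      mul_mem' := fun {f g} hf hg => by
        have := Measurable.mul hf hg
        exact this
      add_mem' := fun {f g} hf hg => by
        have := Measurable.add hf hg
        exact this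
      algebraMap_mem' := fun r => by
        exact (measurable_const : Measurable (fun t : Icc (0 : ℝ) 1 => r)) }
  have hco : ∀ a, co a ∈ Al := by
    intro a
    change Measurable (fun t : Icc (0 : ℝ) 1 => if (pt K b t.1 t.2).1 a = true then (1 : ℝ) else 0)
    refine Measurable.ite ?_ measurable_const measurable_const
    have : {t : Icc (0 : ℝ) 1 | (pt K b t.1 t.2).1 a = true} = {t | b ≤ a} ∩ Subtype.val ⁻¹' (K a) := by
      ext t
      simp [pt]
    rw [this]
    refine MeasurableSet.inter (MeasurableSet.const _) ?_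
    exact measurable_subtype_coe (hK a).isClosed.measurableSet
  have hsep : Al.SeparatesPoints := by
    intro x y hxy
    have : ∃ a, x.1 a ≠ y.1 a := by
      by_contra hc
      push Not at hc
      exact hxy (Subtype.ext (funext hc))
    obtain ⟨a, ha⟩ := this
    refine ⟨co a, ⟨co a, hco a, rfl⟩, ?_⟩
    simp only [co, ContinuousMap.coe_mk]
    cases hx : x.1 a <;> cases hy : y.1 a <;> simp_all
  have htop := ContinuousMap.subalgebra_topologicalClosure_eq_top_of_separatesPoints Al hsep
  have hf : f ∈ closure (Al : Set C(Sp K, ℝ)) := by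
    have : f ∈ Al.topologicalClosure := by rw [htop]; trivial
    exact this
  obtain ⟨u, hu1, hu2⟩ := mem_closure_iff_seq_limit.1 hf
  refine measurable_of_tendsto_metrizable (f := fun n (t : Icc (0 : ℝ) 1) => u n (pt K b t.1 t.2))
    (fun n => hu1 n) ?_
  rw [tendsto_pi_nhds]
  intro t
  exact ((continuous_eval_const (pt K b t.1 t.2)).tendsto f).comp hu2


/-- the compactum -/
def XX (K : Om → Set ℝ) : Type := ↥(Sp K)

instance : TopologicalSpace (XX K) := inferInstanceAs (TopologicalSpace ↥(Sp K))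
instance : CompactSpace (XX K) := inferInstanceAs (CompactSpace ↥(Sp K))
instance : T2Space (XX K) := inferInstanceAs (T2Space ↥(Sp K))
instance : MeasurableSpace (XX K) := borel _
instance : BorelSpace (XX K) := ⟨rfl⟩

variable (K) in
def ptt (b : Om) (t : Icc (0 : ℝ) 1) : XX K := pt K b t.1 t.2

theorem measurable_ptt (hK : ∀ a, IsCompact (K a)) (b : Om) (f : C(XX K, ℝ)) :
    Measurable (fun t : Icc (0 : ℝ) 1 => f (ptt K b t)) := measurable_pt hK b f

theorem integrable_ptt (hK : ∀ a, IsCompact (K a)) (b : Om) (f : C(XX K, ℝ)) :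
    Integrable (fun t : Icc (0 : ℝ) 1 => f (ptt K b t)) volume := by
  refine Integrable.of_bound (measurable_ptt hK b f).aestronglyMeasurable ‖f‖ ?_
  exact Eventually.of_forall fun t => f.norm_coe_le_norm _

theorem exists_meas (hK : ∀ a, IsCompact (K a)) (b : Om) :
    ∃ μ : ProbabilityMeasure (XX K), (μ : Measure (XX K)).Regular ∧
      ∀ f : C(XX K, ℝ), ∫ x, f x ∂(μ : Measure (XX K)) = ∫ t : Icc (0 : ℝ) 1, f (ptt K b t) := by
  let L : CompactlySupportedContinuousMap (XX K) ℝ →ₗ[ℝ] ℝ :=
    { toFun := fun f => ∫ t : Icc (0 : ℝ) 1, f (ptt K b t)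
      map_add' := fun f g => by
        have := integral_add (integrable_ptt hK b (f : C(XX K, ℝ))) (integrable_ptt hK b (g : C(XX K, ℝ)))
        exact this
      map_smul' := fun r f => by
        have := integral_const_mul (μ := (volume : Measure (Icc (0 : ℝ) 1))) r (fun t => f (ptt K b t))
        exact this }
  let P : CompactlySupportedContinuousMap (XX K) ℝ →ₚ[ℝ] ℝ := PositiveLinearMap.mk₀ L (by
    intro f hf
    exact integral_nonneg fun t => hf _)
  have hint : ∀ f : C(XX K, ℝ), ∫ x, f x ∂(RealRMK.rieszMeasure P) = ∫ t : Icc (0 : ℝ) 1, f (ptt K b t) := by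
    intro f
    let F : CompactlySupportedContinuousMap (XX K) ℝ := ⟨f, HasCompactSupport.of_compactSpace _⟩
    exact RealRMK.integral_rieszMeasure P F
  have hfin : IsFiniteMeasure (RealRMK.rieszMeasure P) := inferInstance
  have hone : (RealRMK.rieszMeasure P) univ = 1 := by
    have h := hint (ContinuousMap.const _ 1)
    simp only [ContinuousMap.const_apply, integral_const, smul_eq_mul, mul_one] at h
    rw [measureReal_def, measureReal_def] at h
    have h1 : (volume : Measure (Icc (0 : ℝ) 1)) univ = 1 := measure_univ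
    rw [h1, ENNReal.toReal_one] at h
    have := (ENNReal.toReal_eq_one_iff _).1 h
    exact this
  exact ⟨⟨RealRMK.rieszMeasure P, ⟨hone⟩⟩, RealRMK.regular_rieszMeasure P, hint⟩

variable (K) in
/-- the empty set as a point of the compactum -/
def zeroX : XX K := zero K

/-- coordinate function -/
def coX (a : Om) : C(XX K, ℝ) := co (K := K) a

theorem exists_finite_nhd (f : C(XX K, ℝ)) (ε : ℝ) (hε : 0 < ε) :
    ∃ F : Finset Om, ∀ x : XX K, (∀ a ∈ F, x.1 a = false) → |f x - f (zeroX K)| < ε := by
  have ho : IsOpen {x : XX K | |f x - f (zeroX K)| < ε} :=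
    isOpen_lt (by fun_prop) continuous_const
  obtain ⟨v, hv, hvo⟩ := isOpen_induced_iff.1 ho
  have h0 : (zeroX K).1 ∈ v := by
    have : zeroX K ∈ {x : XX K | |f x - f (zeroX K)| < ε} := by simpa using hε
    rw [← hvo] at this
    exact this
  obtain ⟨I, u, hu1, hu2⟩ := isOpen_pi_iff.1 hv _ h0
  refine ⟨I, fun x hx => ?_⟩
  have : x ∈ {x : XX K | |f x - f (zeroX K)| < ε} := by
    rw [← hvo]
    refine hu2 ?_
    intro a ha
    rw [hx a ha]
    exact (hu1 a ha).2
  exact this

theorem main (hK : ∀ a, IsCompact (K a)) (hb : Bdd K)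
    (hvol : ∀ a, 1 / 2 ≤ (volume : Measure (Icc (0 : ℝ) 1)).real ((Subtype.val : Icc (0 : ℝ) 1 → ℝ) ⁻¹' (K a))) : Fails := by
  refine ⟨XX K, inferInstance, inferInstance, inferInstance, inferInstance, inferInstance,
    ⟨Subtype.val, IsEmbedding.subtypeVal, ?_⟩, tight hK hb, zeroX K, ?_⟩
  · intro x
    obtain ⟨g, hg⟩ := exists_bd hK hb x
    exact (Set.countable_coe_iff.1 (countable_Iio g)).mono fun a ha => hg a ha
  choose μ hreg hμ using exists_meas hK
  refine ⟨range μ, ?_, ?_, ?_⟩
  · rintro _ ⟨b, rfl⟩; exact hreg b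
  · have ht : Tendsto μ atTop (𝓝 (dir (zeroX K))) := by
      rw [ProbabilityMeasure.tendsto_iff_forall_integral_tendsto]
      intro f
      rw [coe_dir, integral_dirac, Metric.tendsto_atTop]
      intro ε hε
      obtain ⟨F, hF⟩ := exists_finite_nhd (f.toContinuousMap : C(XX K, ℝ)) (ε / 2) (by linarith)
      obtain ⟨g, hg⟩ := exists_bound' (ι := F) (fun a => a.1)
      refine ⟨g, fun b hb' => ?_⟩
      have h1 : ∫ ω, f ω ∂(μ b : Measure (XX K)) = ∫ t : Icc (0 : ℝ) 1, f (ptt K b t) :=
        hμ b f.toContinuousMap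
      have h2 : ∀ t : Icc (0 : ℝ) 1, ‖f (ptt K b t) - f (zeroX K)‖ ≤ ε / 2 := by
        intro t
        refine (hF (ptt K b t) ?_).le
        intro a ha
        classical
        change decide (b ≤ a ∧ t.1 ∈ K a) = false
        have : a < b := (hg ⟨a, ha⟩).trans_le hb'
        simp [not_le.2 this]
      have hi : Integrable (fun t : Icc (0 : ℝ) 1 => f (ptt K b t)) volume :=
        integrable_ptt hK b f.toContinuousMap
      have h3 : (∫ t : Icc (0 : ℝ) 1, f (ptt K b t)) - f (zeroX K) =
          ∫ t : Icc (0 : ℝ) 1, (f (ptt K b t) - f (zeroX K)) := by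
        rw [integral_sub hi (integrable_const _)]
        simp
      rw [h1, Real.dist_eq, ← Real.norm_eq_abs, h3]
      have h4 := norm_integral_le_of_norm_le_const (μ := (volume : Measure (Icc (0 : ℝ) 1)))
        (Eventually.of_forall h2)
      refine h4.trans_lt ?_
      simp
      linarith
    exact mem_closure_of_tendsto ht (Eventually.of_forall fun b => mem_range_self b)
  · intro B hB hBc hcl
    have hB' : ∀ ν : B, ∃ b, μ b = ν.1 := fun ν => hB ν.2
    choose bb hbb using hB'
    haveI : Countable B := hBc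
    obtain ⟨a, ha⟩ := exists_bound' bb
    let c : BoundedContinuousFunction (XX K) ℝ := BoundedContinuousFunction.mkOfCompact (coX a)
    have hcont : Continuous (fun ν : ProbabilityMeasure (XX K) => ∫ x, c x ∂(ν : Measure (XX K))) :=
      ProbabilityMeasure.continuous_integral_boundedContinuousFunction c
    have hopen : IsOpen {ν : ProbabilityMeasure (XX K) | ∫ x, c x ∂(ν : Measure (XX K)) < 1 / 2} :=
      isOpen_lt hcont continuous_const
    have hmem : dir (zeroX K) ∈
        {ν : ProbabilityMeasure (XX K) | ∫ x, c x ∂(ν : Measure (XX K)) < 1 / 2} := by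
      change ∫ x, c x ∂(Measure.dirac (zeroX K)) < 1 / 2
      rw [integral_dirac]
      change (if (zero K).1 a = true then (1 : ℝ) else 0) < 1 / 2
      simp [zero]
    obtain ⟨ν, hν1, hν2⟩ := mem_closure_iff.1 hcl _ hopen hmem
    have h1 := hbb ⟨ν, hν2⟩
    have h2 := ha ⟨ν, hν2⟩
    set b := bb ⟨ν, hν2⟩ with hbdef
    have hν1' : ∫ x, c x ∂(ν : Measure (XX K)) < 1 / 2 := hν1
    rw [show ν = μ b from h1.symm] at hν1'
    have h3 : ∫ x, c x ∂(μ b : Measure (XX K)) = ∫ t : Icc (0 : ℝ) 1, (coX a : C(XX K, ℝ)) (ptt K b t) :=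
      hμ b (coX a)
    have h4 : (fun t : Icc (0 : ℝ) 1 => (coX a : C(XX K, ℝ)) (ptt K b t)) =
        indicator ((Subtype.val : Icc (0 : ℝ) 1 → ℝ) ⁻¹' (K a)) (fun _ => (1 : ℝ)) := by
      funext t
      classical
      change (if decide (b ≤ a ∧ t.1 ∈ K a) = true then (1 : ℝ) else 0) = _
      simp only [decide_eq_true_eq, indicator, mem_preimage, h2.le, true_and]
    rw [h3, h4, integral_indicator (measurable_subtype_coe (hK a).isClosed.measurableSet)] at hν1'
    simp only [integral_const, smul_eq_mul, mul_one, measureReal_restrict_apply_univ] at hν1'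
    exact absurd hν1' (not_lt.2 (hvol a))

theorem of_cover (N : Om → Set ℝ) (hN : ∀ i, volume (N i) = 0) (hcov : ∀ t, ∃ i, t ∈ N i) : Fails := by
  have hM : ∀ a : Om, volume (⋃ b : Iic a, N b) = 0 := by
    intro a
    haveI : Countable (Iic a) := by
      have : Iic a = insert a (Iio a) := by
        ext x
        simp [le_iff_eq_or_lt]
      rw [this]
      exact (Set.Countable.insert _ (Set.countable_coe_iff.1 (countable_Iio _))).to_subtype
    exact measure_iUnion_null fun b => hN b
  have hex : ∀ a : Om, ∃ C : Set ℝ, C ⊆ Icc (0 : ℝ) 1 \ toMeasurable volume (⋃ b : Iic a, N b) ∧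
      IsCompact C ∧ (1 / 2 : ENNReal) < volume C := by
    intro a
    have hm : MeasurableSet (Icc (0 : ℝ) 1 \ toMeasurable volume (⋃ b : Iic a, N b)) :=
      measurableSet_Icc.diff (measurableSet_toMeasurable _ _)
    refine hm.exists_lt_isCompact ?_
    rw [measure_sdiff_null (by rw [measure_toMeasurable]; exact hM a)]
    simp
  choose K hK1 hK2 hK3 using hex
  refine main (K := K) hK2 ?_ ?_
  · intro t
    obtain ⟨i, hi⟩ := hcov t
    refine ⟨i, fun a ha => ?_⟩
    by_contra hc
    push Not at hc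
    refine (hK1 a ha).2 (subset_toMeasurable _ _ ?_)
    exact mem_iUnion.2 ⟨⟨i, hc⟩, hi⟩
  · intro a
    rw [measureReal_def, volume_preimage_coe measurableSet_Icc.nullMeasurableSet (hK2 a).isClosed.measurableSet]
    have : K a ∩ Icc 0 1 = K a := inter_eq_left.2 fun x hx => (hK1 a hx).1
    rw [this]
    have h1 : volume (K a) ≠ ⊤ := (hK2 a).measure_lt_top.ne
    have h2 := ENNReal.toReal_mono h1 (hK3 a).le
    simpa using h2

end

/-- The Lebesgue null sets covering the real line: some `aleph_1` of them. -/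
def CovNull : Prop :=
  ∃ F : Set (Set ℝ), #F ≤ ℵ₁ ∧ (∀ N ∈ F, volume N = 0) ∧ ⋃₀ F = Set.univ

theorem of_covNull (h : CovNull) : Fails := by
  obtain ⟨F, hF1, hF2, hF3⟩ := h
  have hne : Nonempty F := by
    have : (0 : ℝ) ∈ ⋃₀ F := by rw [hF3]; trivial
    obtain ⟨N, hN, _⟩ := this
    exact ⟨⟨N, hN⟩⟩
  have h4 : #Om = ℵ₁ := by simp
  rw [← h4] at hF1
  obtain ⟨e⟩ : Nonempty (F ↪ Om) := hF1
  have hs : Function.Surjective (Function.invFun e) := Function.invFun_surjective e.injective
  refine of_cover (fun i => (Function.invFun e i).1) (fun i => hF2 _ (Function.invFun e i).2) ?_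
  intro t
  have : t ∈ ⋃₀ F := by rw [hF3]; trivial
  obtain ⟨N, hN, ht⟩ := this
  obtain ⟨i, hi⟩ := hs ⟨N, hN⟩
  refine ⟨i, ?_⟩
  change t ∈ (Function.invFun e i).1
  rw [hi]
  exact ht

theorem covNull_of_CH (h : (ℵ₁ : Cardinal.{0}) = 𝔠) : CovNull := by
  refine ⟨range (fun t : ℝ => ({t} : Set ℝ)), ?_, ?_, ?_⟩
  · rw [h]
    exact Cardinal.mk_range_le.trans_eq Cardinal.mk_real
  · rintro _ ⟨t, rfl⟩; simp
  · ext t; simp

theorem result :
    (∃ (P : Type) (_ : Preorder P), Nonempty P ∧ ∀ p : P,
      p ∈ Pool.Agent.Helper318.ForceCH.OmegaOnePreserved P ∧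
      p ∈ Pool.Agent.Helper318.ForceCH.CHHolds P) ∧
    (CovNull → Fails) ∧ ((ℵ₁ : Cardinal.{0}) = 𝔠 → Fails) := by
  refine ⟨?_, of_covNull, fun h => of_covNull (covNull_of_CH h)⟩
  obtain ⟨P, i, hP, h⟩ := Pool.Agent.Helper318.ForceCH.exists_forcing
  exact ⟨P, i, hP, fun p => ⟨(h p).1, (h p).2.2⟩⟩

end Pool.Agent.Results.MP_aebb62_gt.ConsistentlyNo
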